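import Pool.Agent.H99.D2.Pye
import Pool.Agent.H18.PN.Pzs

/-!
# The first jet of a place from a jointly nonfull pair of any radius

`f1_of_pairE`: `f1_of_pairD` with the radius `pzR a R₁ q` and the window `t - pzU a R₁ q`.
`f1pe`: the statement `F1PE`.
-/

set_option autoImplicit false

namespace Pool.CR99

open Finset Real MvPolynomial
open Pool.Agent.H49.Ent Pool.Agent.H32.Dense Pool.STK Pool.KA Pool.KSAT Pool.K2S Pool.PB
open Pool.GEN Pool.S6C Pool.STAT Pool.CHT Pool.GRW Pool.ONE Pool.STA Pool.PKG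
open Pool.V1E (rstC rst_sub)
open Pool.LA91 (FaQ sumQ qJets qJet ChG ojet)
open Pool.OWN68 (F1)
open Pool.RCD (vg)
open Pool.AJW Pool.PN18

/-- **The first jet of a place** from the data of a jointly nonfull pair of any radius, at a record. -/
theorem f1_of_pairE (K : ℕ) {a b R₁ : ℝ} (ha : 1 < a) (hb : 0 < b) (hR₁ : 0 ≤ R₁)
    (hres : ∀ i : ℕ, 1 ≤ i → i ≤ ⌊a⌋₊ → ∀ j : ℕ, 1 ≤ j → j ≤ ⌊b⌋₊ → (i : ℝ) * b ≠ j * a)
    {h' : ℝ} (hh' : 0 < h') (hh1 : h' ≤ a) (hh2 : h' ≤ b) {dd : ℝ} (hdd : 0 < dd) :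
    ∃ δ : ℝ, 0 < δ ∧ ∃ N₀ : ℕ, 0 < N₀ ∧
    ∀ {m : ℕ} {S : PCl m} {al : ℝ} {g₀ : ℝ → ℝ} {P : List (Fin m) × Fin m → ℝ → ℝ → ℝ}
      {θ : ℝ} {P₂ : ℕ → List (Fin m) × Fin m → ℝ → ℝ → ℝ} {θ₂ Eb e₂ : ℕ → ℝ}
      {c : ℕ → Fin m} {Pt : ℝ → ℝ → ℝ} {rt : ℝ → ℝ} {h K₀ g : ℝ} {L T : ℕ → ℝ → ℝ → ℝ}
      {Sl : ℕ → ℝ} {κ : ℕ → Kg} {G : Set ℝ} {S₀ N : ℕ} {A V : ℕ → ℝ} {S₂ N' : ℕ} {V' : ℕ → ℝ}
      {K' ε q t : ℝ}
      (_ : RecG S al g₀ P θ P₂ θ₂ Eb e₂ c Pt rt h K₀ g L T Sl κ G S₀ N A V S₂ N' V' K' ε q t)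
      {S₁ : PCl m} (_ : ∀ (τ : ℝ) (J : ℕ) (F : Fam m J) (A : F.Ω → Prop),
        S₁.St τ J F A → S.St τ J F A) {r : ℕ} (_ : 1 ≤ r) (_ : r + 1 < m)
      (_ : ∀ l < r, κ l = .one) (_ : Sl r = a) (_ : Sl (r + 1) = b)
      (_ : ChG S₁ c (r + 1) (fun l x => L l x x) G) {X φ kf ℓ D d₀ : ℝ} (_ : 0 < φ)
      (_ : φ ≤ 1 / 8) (_ : 32 * (r + 1) * φ ≤ X) (_ : 2 * (a * pzR a R₁ + (K + 6) * pzU a R₁) ≤ X)
      (_ : a * d₀ + b * |D| + a * pzR a R₁ + pzR a R₁ * b + 8 ≤ X) (_ : 3 ^ r * X + a + (r + 1) ≤ kf)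
      (_ : kf + pzU a R₁ + a ≤ ℓ)
      (_ : a * d₀ + b * |D| + a * pzR a R₁ + pzR a R₁ * b + 8 ≤ ℓ)
      (_ : 0 ≤ d₀) (_ : a * pzR a R₁ + 1 ≤ ((⌊a⌋₊ : ℝ) + 1 - a) * d₀)
      (_ : pzU a R₁ + 3 ^ r * X ≤ K') (_ : d₀ + pzU a R₁ ≤ K') (_ : ℓ ≤ K')
      (_ : 2 * (a + b) * pzR a R₁ ≤ K') (_ : pzU a R₁ + |D| + 2 ≤ K') (_ : 2 * ε ≤ φ) (_ : 0 ≤ ε)
      (_ : t ∈ G) (_ : ∀ k ≤ r, t + jfV r (-pzU a R₁) X k * q ∈ G)
      (_ : t + (-pzU a R₁ - d₀) * q ∈ G) {pf : ℕ → ℝ} {pr : ℝ} {Nf : ℕ → ℕ → ℝ}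
      (_ : ∀ l < r, L l t t - φ * q ≤ pf l) (_ : L r t t - φ * q ≤ pr)
      (_ : ∀ l < r, ∀ j ≤ 1, Nf l j = L l t t + kf * q - (j : ℕ) * t)
      {Ψ : Fm2 m} {I₂ : Finset (Fin m)} {e E₂ r₂ p₂ m₁ ρ vn Pn En Rn : ℝ} {E rd : ℕ → ℝ}
      {K₁ : ℕ} (_ : 0 < e) (_ : e ≤ min (φ / 16) (δ * pzR a R₁ / 16) * q) (_ : 3 ^ r * X * q < m₁)
      (_ : ρ < 1) (_ : ∀ i ≤ r, 0 ≤ E i ∧ L i (t + -pzU a R₁ * q) (t + -pzU a R₁ * q) + E i + m₁ ≤ 1 ∧
            0 ≤ rd i ∧ rd i ≤ ρ) (_ : t + -pzU a R₁ * q - D * q ≤ vn)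
      (_ : PairE S₁ Ψ c r K I₂ (c (r + 1)) a b (pzR a R₁) h' δ (ℓ * q) N₀
            (t + -pzU a R₁ * q) t q (fun i => L i (t + -pzU a R₁ * q) (t + -pzU a R₁ * q))
            (nX r (fun l x => L l x x) (t + -pzU a R₁ * q) (X * q)) (fun x => L (r + 1) x x)
            pf Nf e E₂ r₂ p₂ E rd vn Pn En Rn K₁),
      F1 S₁ (fun J F => ptr F J) (vg t) (fun _ F => F.T)
          (qJets m c 0 r 1 (fun _ _ => t) (fun l _ => pf l) Nf)
          (qJet m ((range r).image c) (c r) 1 t pr (L r t t + (a - 1) * q - t)) e (dd * q) := by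
  have ha0 : 0 < a := by linarith
  obtain ⟨ra, hra⟩ : ∃ ra, ra = pzR a R₁ := ⟨_, rfl⟩
  have hra0 : 0 < ra := hra ▸ pzR_pos ha hR₁
  have hra1 : a ≤ ra := by
    have h2 : 0 ≤ (a - 1) * R₁ := mul_nonneg (by linarith) hR₁
    rw [hra]
    unfold pzR
    linarith only [h2]
  obtain ⟨δ, hδ, N₀, hN₀, H⟩ := u_F1 K (ku := min ⌊a⌋₊ (K + 2)) (kn := min ⌊b⌋₊ (K + 2))
    (min_le_right _ _) (min_le_right _ _) ha0 hb
    (fun i h1 h2 j h3 h4 => hres i h1 (h2.trans (min_le_left _ _)) j h3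
      (h4.trans (min_le_left _ _))) hh' hh1 hh2 (ε := dd / ra) (by positivity)
  refine ⟨δ, hδ, N₀, hN₀, ?_⟩
  intro m S al g₀ P θ P₂ θ₂ Eb e₂ c Pt rt h K₀ g L T Sl κ G S₀ N A V S₂ N' V' K' ε q t R S₁ hs r
    hr hrm hκ hSa hSb hch X φ kf ℓ D d₀ hφ hφ8 hφX hXK hXd hkf hℓ hℓd hd₀ hda hK1 hK2 hK3 hK4 hK5
    hεφ hε htG hvG huG pf pr Nf hpf hpr hNf Ψ I₂ e E₂ r₂ p₂ m₁ ρ vn Pn En Rn E rd K₁ he hee hm₁
    hρ hE hvn PD
  have hq := R.q0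
  have ht0 := R.t0
  have ht1 := R.t1
  obtain ⟨τ, hτ⟩ : ∃ τ, τ = pzU a R₁ := ⟨_, rfl⟩
  have hτa : a < τ := by
    have h1 := pzU_gt (R₁ := R₁) ha
    rw [← hτ, ← hra] at h1
    linarith only [h1, hra1, hR₁]
  have hτ1 : (a - 1) * (τ + 1) = a * ra - 1 / 2 := by
    rw [hτ, hra]
    exact pzU_mul ha
  have hτ2 : a * ra + 1 / 2 ≤ a * τ := by
    rw [hτ, hra]
    exact pzU_ge ha hR₁
  rw [← hra] at hXK hXd hℓd hda hK4 hee PD
  have hDab := pzD_mul (a := ra) (b := b)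
  obtain ⟨dn, hdn⟩ : ∃ dn, dn = pzD ra b := ⟨_, rfl⟩
  have hvnv := PD.vnv
  rw [← hdn] at hDab hvnv
  rw [← hτ] at hXK hℓ hK1 hK2 hK5 hvG huG hE hvn PD hvnv
  have hτ0 : 0 < τ := by linarith
  have h3X : X ≤ 3 ^ r * X := by
    have h1 : (1 : ℝ) ≤ 3 ^ r := one_le_pow₀ (by norm_num)
    have h2 : 0 ≤ X := by
      have : 0 ≤ a * d₀ + b * |D| + a * ra + ra * b + 8 := by positivity
      linarith
    nlinarith
  have hX0 : 0 < X := by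
    have : 0 < a * d₀ + b * |D| + a * ra + ra * b + 8 := by positivity
    linarith
  have hr0 : (1 : ℝ) ≤ r := by exact_mod_cast hr
  have U : JfU r K (-τ) X φ ℓ kf :=
    { vv0 := by linarith
      φ0 := hφ
      XK := by
        rw [neg_neg]
        nlinarith
      φX := hφX
      kfX := by nlinarith
      lamk := by linarith }
  have hF := farV_nf (R.farV hκ (by omega) hch U htG hvG (by linarith only [hK1]) hK3 hεφ hpf)
    (Nf' := Nf) fun l _ hl j hj => hNf l hl j hj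
  obtain ⟨g₁, hg₁, hJ⟩ := R.jetx hκ (by omega) hch U htG hvG (by linarith only [hK1]) hK3 hεφ hm₁
    hρ hE
  have hJ := hJ (a * ra) (by positivity) (by rw [neg_neg]; exact hXK) (by
    rw [neg_neg, hSa]
    linarith only [hτ2, hφ8, hεφ])
  have e1 : a * ra * q = a * (ra * q) := by ring
  rw [e1] at hJ
  -- the levels
  have hnear : ∀ x : ℝ, 0 ≤ x → x ≤ K' → |t + -x * q - t| ≤ K' * q := fun x h1 h2 => by
    rw [add_sub_cancel_left, neg_mul, abs_neg, abs_mul, abs_of_nonneg h1, abs_of_pos hq]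
    exact mul_le_mul_of_nonneg_right h2 hq.le
  have h3X0 : 0 ≤ 3 ^ r * X := by positivity
  have hdv := abs_le.1 (R.dL r (by omega) _ (hnear τ hτ0.le (by linarith only [hK1, h3X0])))
  have hdu := abs_le.1 (R.dL r (by omega) _ (hnear (τ + d₀) (by linarith only [hτ0, hd₀])
    (by linarith only [hK2])))
  have hdN := abs_le.1 (R.dL (r + 1) hrm _ (hnear τ hτ0.le (by linarith only [hK1, h3X0])))
  rw [hSa] at hdv hdu
  rw [hSb] at hdN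
  have ev : t + -τ * q - t = -(τ * q) := by ring
  have eu : t + -(τ + d₀) * q = t + (-τ - d₀) * q := by ring
  have eu2 : t + (-τ - d₀) * q - t = -((τ + d₀) * q) := by ring
  rw [ev] at hdv hdN
  rw [eu, eu2] at hdu
  obtain ⟨v, hv⟩ : ∃ v, v = t + -τ * q := ⟨_, rfl⟩
  obtain ⟨vu, hvu⟩ : ∃ vu, vu = t + (-τ - d₀) * q := ⟨_, rfl⟩
  obtain ⟨Lt, hLt⟩ : ∃ Lt, Lt = L r t t := ⟨_, rfl⟩
  obtain ⟨Lv, hLv⟩ : ∃ Lv, Lv = L r v v := ⟨_, rfl⟩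
  obtain ⟨Lu, hLu⟩ : ∃ Lu, Lu = L r vu vu := ⟨_, rfl⟩
  obtain ⟨Nv, hNv⟩ : ∃ Nv, Nv = L (r + 1) v v := ⟨_, rfl⟩
  obtain ⟨Nn, hNn⟩ : ∃ Nn, Nn = L (r + 1) vn vn := ⟨_, rfl⟩
  have hεq : 2 * ε * q ≤ φ * q := mul_le_mul_of_nonneg_right hεφ hq.le
  have hεq0 : 0 ≤ ε * q := mul_nonneg hε hq.le
  have hφq : φ * q ≤ 1 / 8 * q := mul_le_mul_of_nonneg_right hφ8 hq.le
  have hφq0 : 0 < φ * q := mul_pos hφ hq
  have hτq : 0 < τ * q := mul_pos hτ0 hq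
  have haq : 0 < a * q := mul_pos ha0 hq
  have hraq : 0 < ra * q := mul_pos hra0 hq
  have hDq : 0 ≤ |D| * q := mul_nonneg (abs_nonneg D) hq.le
  have hDq' : D * q ≤ |D| * q := mul_le_mul_of_nonneg_right (le_abs_self D) hq.le
  have hK5q := mul_le_mul_of_nonneg_right hK5 hq.le
  have hK4q := mul_le_mul_of_nonneg_right hK4 hq.le
  have hv' : v = t - τ * q := by rw [hv]; ring
  have hvu' : vu = t - (τ + d₀) * q := by rw [hvu]; ring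
  have hvn1 : v - |D| * q ≤ vn := by rw [hv]; linarith only [hvn, hDq']
  have hvnt : vn ≤ v := by
    have h1 : 0 ≤ dn * q := by
      refine mul_nonneg ?_ hq.le
      have h2 : 0 < (⌊b⌋₊ : ℝ) + 1 - b := by
        have := Nat.lt_floor_add_one b
        linarith only [this]
      have h3 : 0 ≤ ra * b + 4 := by positivity
      rw [← hDab] at h3
      exact nonneg_of_mul_nonneg_right h3 h2
    rw [hv]
    linarith only [h1, hvnv]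
  have hvnN : |vn - t| ≤ K' * q := by
    rw [abs_le]
    constructor
    · linarith only [hvn1, hK5q, hv', hq]
    · linarith only [hvnt, hv', hτq, hK5q, hDq, hq]
  have hdn2 := abs_le.1 (R.dL (r + 1) hrm vn hvnN)
  rw [hSb] at hdn2
  rw [← hv] at hJ hF hE PD hvnv hdv hdN
  rw [← hvu] at hdu huG
  rw [← hLt] at hdv hdu hpr
  rw [← hLv] at hdv
  rw [← hLu] at hdu
  rw [← hNv] at hdN
  rw [← hNn] at hdn2
  have hv0 : 0 ≤ v := by linarith only [hv', hK5q, hDq, hq, ht0]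
  have hvt : v ≤ t := by linarith only [hv', hτq]
  have hvn0 := PD.vn0
  have hKq1 : 0 < K' * q := by linarith only [hK5q, hDq, hτq, hq]
  have hNn0 : vn ≤ Nn := by
    rw [hNn]
    exact R.low_at hrm hvn0 le_rfl (by linarith only [hvnt, hvt, ht1, hKq1])
  have hNv0 : v ≤ Nv := by
    rw [hNv]
    exact R.low_at hrm hv0 le_rfl (by linarith only [hvt, ht1, hKq1])
  have hp1 : p₂ ≤ Nv + q := by rw [hNv]; exact PD.p₂1
  have hp2 : Nv - q ≤ p₂ := by rw [hNv]; exact PD.p₂2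
  have hP1 : Nn - q ≤ Pn := by rw [hNn]; exact PD.Pn1
  have hvvn : v - vn ≤ |D| * q := by linarith only [hvn1]
  have hbvn : b * (v - vn) ≤ b * |D| * q := by
    have := mul_le_mul_of_nonneg_left hvvn hb.le
    linarith only [this]
  have ebv : b * v = b * t - b * (τ * q) := by rw [hv']; ring
  have hNN : Nv ≤ Nn + b * (v - vn) + 2 * (ε * q) := by linarith only [hdN.2, hdn2.1, ebv]
  have hNN' : 0 ≤ b * (v - vn) := mul_nonneg hb.le (by linarith only [hvnt])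
  -- the chain at the windows
  obtain ⟨uu, rdu, hrdu, hcu⟩ := hch.ch vu huG
  obtain ⟨ut, rdt, hrdt, hct⟩ := hch.ch t htG
  have hAu := hcu.att r (Nat.zero_le r) (Nat.lt_succ_self r)
  have hAt := hct.att r (Nat.zero_le r) (Nat.lt_succ_self r)
  have hXq : (a * d₀ + b * |D| + a * ra + ra * b + 8) * q ≤ X * q :=
    mul_le_mul_of_nonneg_right hXd hq.le
  have hℓq : (a * d₀ + b * |D| + a * ra + ra * b + 8) * q ≤ ℓ * q :=
    mul_le_mul_of_nonneg_right hℓd hq.le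
  have hℓq2 : (kf + τ + a) * q ≤ ℓ * q := mul_le_mul_of_nonneg_right hℓ hq.le
  have hkfq : (3 ^ r * X + a + (r + 1)) * q ≤ kf * q := mul_le_mul_of_nonneg_right hkf hq.le
  have haX : ∀ l, X * q ≤ aX r (X * q) l := fun l => aX_ge (by positivity) l
  have had0 : 0 ≤ a * d₀ * q := by positivity
  have haa : 0 ≤ a * ra * q := by positivity
  have hab : 0 ≤ ra * b * q := by positivity
  have hbD : 0 ≤ b * |D| * q := by positivity
  have hru : 1 * q ≤ (r : ℝ) * q := mul_le_mul_of_nonneg_right hr0 hq.le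
  have hXq0 : 0 ≤ 3 ^ r * X * q := mul_nonneg h3X0 hq.le
  have htm : TmC S₁ 6 := fun τ J F A hτ h => R.tmc τ J F A hτ (hs τ J F A h)
  have hmu : Lv - a * d₀ * q - 2 * (ε * q) ≤ min Lu Lv :=
    le_min (by linarith only [hdv.2, hdu.1]) (by linarith only [had0, hεq0])
  have hmn : Nv - b * |D| * q - 2 * (ε * q) - q ≤ min Pn p₂ :=
    le_min (by linarith only [hNN, hP1, hbvn]) (by linarith only [hp2, hbD, hεq0])
  have hmt : Lt - φ * q ≤ min Lt pr := le_min (by linarith only [hφq0]) hpr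
  have hτ1q : (a - 1) * (τ + 1) * q = (a * ra - 1 / 2) * q := by rw [hτ1]
  have hmin1 : min (φ / 16) (δ * ra / 16) * q ≤ φ / 16 * q :=
    mul_le_mul_of_nonneg_right (min_le_left _ _) hq.le
  have hmin2 : min (φ / 16) (δ * ra / 16) * q ≤ δ * ra / 16 * q :=
    mul_le_mul_of_nonneg_right (min_le_right _ _) hq.le
  have k1 : v + 2 * (a + b) * (ra * q) ≤ 1 := by
    linarith only [hvt, hK4q, ht1, show 2 * (a + b) * (ra * q) = 2 * (a + b) * ra * q by ring]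
  have k2 : e ≤ φ * q / 8 := by linarith only [hee, hmin1, hφq0]
  have k3 : e ≤ δ * (ra * q) / 16 := by linarith only [hee, hmin2]
  have k4 : e ≤ φ * q / 16 := by linarith only [hee, hmin1]
  have k5 : 0 ≤ vu := by
    linarith only [hvu', mul_le_mul_of_nonneg_right hK2 hq.le, ht0]
  have k6 : vu ≤ v := by linarith only [hvu', hv', mul_nonneg hd₀ hq.le]
  have k7 : Lv + a * (ra * q) + φ * q ≤ min Lu Lv + ℓ * q := by
    linarith only [hmu, hℓq, hεq, hφq, hbD, hab, hq]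
  have k8 : ∀ l, Lv + a * (ra * q) + φ * q ≤ min Lu Lv + (aX r (X * q) l - 2 * (φ * q)) :=
    fun l => by linarith only [hmu, hXq, hεq, hφq, hbD, hab, hq, haX l]
  have k9 : Lv + a * (ra * q) + φ * q ≤ Lu + ((⌊a⌋₊ : ℝ) + 1) * (v - vu) := by
    have h2 := mul_le_mul_of_nonneg_right hda hq.le
    have h3 : v - vu = d₀ * q := by
      rw [hv', hvu']
      ring
    rw [h3]
    linarith only [hdv.2, hdu.1, h2, hεq, hφq, hq]
  have k10 : φ * q ≤ min Pn p₂ := le_min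
    (by linarith only [hP1, hNn0, hvn1, hv', hK5q, ht0, hφq, hq])
    (by linarith only [hp2, hNv0, hv', hK5q, ht0, hφq, hq, hDq])
  have k11 : p₂ + b * (ra * q) + φ * q ≤ min Pn p₂ + ℓ * q := by
    linarith only [hmn, hp1, hℓq, hεq, hφq, haa, had0, hq]
  have k12 : ∀ l, p₂ + b * (ra * q) + φ * q ≤ min Pn p₂ + (aX r (X * q) l - 2 * (φ * q)) :=
    fun l => by linarith only [hmn, hp1, hXq, hεq, hφq, haa, had0, hq, haX l]
  have k13 : p₂ + b * (ra * q) ≤ Pn + ((⌊b⌋₊ : ℝ) + 1) * (v - vn) := by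
    have h2 : ((⌊b⌋₊ : ℝ) + 1 - b) * (dn * q) ≤ ((⌊b⌋₊ : ℝ) + 1 - b) * (v - vn) := by
      refine mul_le_mul_of_nonneg_left (by linarith only [hvnv]) ?_
      have := Nat.lt_floor_add_one b
      linarith only [this]
    have h3 : ((⌊b⌋₊ : ℝ) + 1 - b) * (dn * q) = (ra * b + 4) * q := by
      rw [← mul_assoc, hDab]
    rw [h3] at h2
    linarith only [h2, hp1, hNN, hP1, hεq, hφq, hq]
  have k14 : Lv ≤ Lt := by
    have h1 : 1 * (τ * q) ≤ a * (τ * q) := mul_le_mul_of_nonneg_right ha.le hτq.le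
    have h2 : 1 * q ≤ τ * q := mul_le_mul_of_nonneg_right (by linarith only [hτa, ha]) hq.le
    linarith only [hdv.2, h1, h2, hεq, hφq, hq]
  have k15 : Lt + (a - 1) * q - t + v ≤ Lv + a * (ra * q) := by
    linarith only [hdv.1, hτ1q, hv', hεq, hφq, hq]
  have k16 : Lt + (a - 1) * q - t + t + φ * q ≤ min Lt pr + (v + ℓ * q - t) := by
    linarith only [hmt, hℓq2, hv', hφq, hkfq, hXq0, hru, haq, hq]
  have k17 : ∀ l < r, Lt + (a - 1) * q - t + t + φ * q ≤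
      min Lt pr + (kf * q - 2 * (l + 1) * (φ * q)) := by
    intro l hl
    have h1 : ((l : ℝ) + 1) ≤ r := by exact_mod_cast hl
    have h2 : 2 * ((l : ℝ) + 1) * (φ * q) ≤ 2 * r * (φ * q) :=
      mul_le_mul_of_nonneg_right (by linarith only [h1]) hφq0.le
    have h3 : (r : ℝ) * (2 * (φ * q)) ≤ r * q :=
      mul_le_mul_of_nonneg_left (by linarith only [hφq, hq]) (by linarith only [hr0])
    linarith only [hmt, hkfq, h2, h3, hXq0, hφq, hq]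
  rw [hLv] at k7 k8 k9 k14 k15
  rw [hLt] at k15 k16 k17
  have hres1 := H htm (c := c) (r := r) hr (κ₂ := c (r + 1)) (I₂ := I₂) (v := v) (w := t)
    (lam := ℓ * q) (q := ra * q) (ρ := φ * q) (g₀ := g₁) (p₂ := p₂) (E₂ := E₂) (r₂ := r₂)
    (σ := φ * q) hraq hJ k1 hF he k2 k3 k4
    PD.psl PD.ex PD.ctx PD.rw₁ PD.rw₂ PD.val (vu := vu) (Pu := Lu) (ru := rdu r) k5 k6
    (hrdu r (Nat.lt_succ_self r)) (by rw [hLu]; exact hAu) k7 (fun l _ => k8 l)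
    (fun hku => by
      have h1 : min ⌊a⌋₊ (K + 2) = ⌊a⌋₊ := by omega
      rw [h1]
      exact k9)
    (vn := vn) (Pn := Pn) (En := En) (Rn := Rn) (K₁ := K₁) hvn0 hvnt PD.dcp k10 k11
    (fun l _ => k12 l) (fun hkn => by
      have h1 : min ⌊b⌋₊ (K + 2) = ⌊b⌋₊ := by omega
      rw [h1]
      exact k13)
    (P₂ := Lt) (pr := pr) (rt := rdt r) (N₁ := L r t t + (a - 1) * q - t) k14
    (hrdt r (Nat.lt_succ_self r)) (by rw [hLt]; exact hAt) k15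
    (by rw [hLt]; exact k16) (fun l hl => by rw [hLt]; exact k17 l hl)
  have e2 : dd / ra * (ra * q) = dd * q := by field_simp
  rw [e2] at hres1
  exact hres1

/-- **The first jet of the place** `r` at all scales of the record, in a subclass, from jointly nonfull
pairs of any radius. -/
theorem f1pe {m r : ℕ} (hr : 1 ≤ r) (hrm : r + 1 < m) : F1PE m r := by
  intro h Sl κ R₁ hR₁ hκ ha hb hres ι Λ Q Z Y hP al hal K₀ hK₀ S₀ hS₀
  obtain ⟨Kr, Nr, Ar, Vr, hKr, hAV, hP⟩ := hP al hal K₀ hK₀ S₀ hS₀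
  refine ⟨Kr, Nr, Ar, Vr, hKr, hAV, fun S₂ hS₂ dd hdd => ?_⟩
  obtain ⟨K, h', D, hh', hh1, hh2, hP⟩ := hP S₂ hS₂ dd hdd
  obtain ⟨a, haE⟩ : ∃ a, a = Sl r := ⟨_, rfl⟩
  obtain ⟨b, hbE⟩ : ∃ b, b = Sl (r + 1) := ⟨_, rfl⟩
  rw [← haE] at ha hres hh1
  rw [← hbE] at hb hres hh2
  obtain ⟨δ, hδ, N₀, hN₀, H⟩ := f1_of_pairE K ha hb hR₁ hres hh' hh1 hh2 hdd
  obtain ⟨X₀, hP⟩ := hP δ hδ N₀ hN₀
  have ha0 : 0 < a := by linarith only [ha]
  have hr0 : (0 : ℝ) ≤ r := Nat.cast_nonneg r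
  have hK0 : (0 : ℝ) ≤ K := Nat.cast_nonneg K
  have hfl : 0 < (⌊a⌋₊ : ℝ) + 1 - a := by
    have := Nat.lt_floor_add_one a
    linarith only [this]
  obtain ⟨τ, hτ⟩ : ∃ τ, τ = pzU a R₁ := ⟨_, rfl⟩
  obtain ⟨ra, hra⟩ : ∃ ra, ra = pzR a R₁ := ⟨_, rfl⟩
  have hra0 : 0 < ra := hra ▸ pzR_pos ha hR₁
  have hτa : 0 < τ := by
    have h1 := pzU_gt (R₁ := R₁) ha
    rw [← hτ, ← hra] at h1
    linarith only [h1, hra0, hR₁]
  have hτ0 : 0 < τ := hτa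
  obtain ⟨d₀, hd₀⟩ : ∃ d₀, d₀ = (a * ra + 1) / ((⌊a⌋₊ : ℝ) + 1 - a) := ⟨_, rfl⟩
  have hd0 : 0 ≤ d₀ := by rw [hd₀]; positivity
  have hda : a * ra + 1 ≤ ((⌊a⌋₊ : ℝ) + 1 - a) * d₀ := by
    rw [hd₀, mul_div_cancel₀ _ hfl.ne']
  have hbD : 0 ≤ b * |D| := mul_nonneg hb.le (abs_nonneg D)
  obtain ⟨Y, hY⟩ : ∃ Y, Y = a * d₀ + b * |D| + a * ra + ra * b + 8 := ⟨_, rfl⟩
  have hY0 : 0 < Y := by rw [hY]; positivity
  obtain ⟨X, hX⟩ : ∃ X, X = |X₀| + 2 * (a * ra + (K + 6) * τ) + Y := ⟨_, rfl⟩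
  have hX1 : X₀ ≤ X := by
    have h1 := le_abs_self X₀
    have h2 : 0 ≤ 2 * (a * ra + (K + 6) * τ) := by positivity
    linarith only [hX, h1, h2, hY0]
  have hX2 : 2 * (a * ra + (K + 6) * τ) ≤ X := by
    have h1 := abs_nonneg X₀
    linarith only [hX, h1, hY0]
  have hX3 : Y ≤ X := by
    have h1 := abs_nonneg X₀
    have h2 : 0 ≤ 2 * (a * ra + (K + 6) * τ) := by positivity
    linarith only [hX, h1, h2]
  have hX0 : 0 < X := by linarith only [hX3, hY0]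
  obtain ⟨φ₀, kf₀, hφ₀, hP⟩ := hP X hX1
  obtain ⟨φ, hφ⟩ : ∃ φ, φ = min φ₀ (min (1 / 8) (X / (32 * (r + 1)))) := ⟨_, rfl⟩
  have hφ0 : 0 < φ := by rw [hφ]; positivity
  have hφ1 : φ ≤ φ₀ := by rw [hφ]; exact min_le_left _ _
  have hφ2 : φ ≤ 1 / 8 := by rw [hφ]; exact (min_le_right _ _).trans (min_le_left _ _)
  have hφ3 : 32 * ((r : ℝ) + 1) * φ ≤ X := by
    have h1 : φ ≤ X / (32 * (r + 1)) := by
      rw [hφ]
      exact (min_le_right _ _).trans (min_le_right _ _)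
    rw [le_div_iff₀ (by positivity)] at h1
    linarith only [h1]
  have h3X : 0 ≤ 3 ^ r * X := by positivity
  obtain ⟨kf, hkf⟩ : ∃ kf, kf = |kf₀| + (3 ^ r * X + a + (r + 1)) := ⟨_, rfl⟩
  have hkf1 : kf₀ ≤ kf := by
    have h1 := le_abs_self kf₀
    linarith only [hkf, h1, h3X, ha0, hr0]
  have hkf2 : 3 ^ r * X + a + (r + 1) ≤ kf := by
    have h1 := abs_nonneg kf₀
    linarith only [hkf, h1]
  obtain ⟨ℓ₀, hP⟩ := hP φ hφ0 hφ1 kf hkf1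
  obtain ⟨ℓ, hℓ⟩ : ∃ ℓ, ℓ = |ℓ₀| + (kf + τ + a) + Y := ⟨_, rfl⟩
  have hℓ1 : ℓ₀ ≤ ℓ := by
    have h1 := le_abs_self ℓ₀
    linarith only [hℓ, h1, hkf2, h3X, hτ0, ha0, hr0, hY0]
  have hℓ2 : kf + τ + a ≤ ℓ := by
    have h1 := abs_nonneg ℓ₀
    linarith only [hℓ, h1, hY0]
  have hℓ3 : Y ≤ ℓ := by
    have h1 := abs_nonneg ℓ₀
    linarith only [hℓ, h1, hkf2, h3X, hτ0, ha0, hr0]
  obtain ⟨e₁, he₁⟩ : ∃ e₁, e₁ = min (φ / 16) (δ * ra / 16) := ⟨_, rfl⟩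
  have he0 : 0 < e₁ := by rw [he₁]; positivity
  obtain ⟨lam, K₁, Nv, Vv, hVv, hP⟩ := hP ℓ hℓ1 e₁ he0
  -- the windows
  obtain ⟨V₂, hV₂⟩ : ∃ V₂ : ℕ → ℝ, V₂ = fun k => if k ≤ r then jfV r (-τ) X k else
    if k = r + 1 then -τ - d₀ else 0 := ⟨_, rfl⟩
  obtain ⟨K₂, hK₂⟩ : ∃ K₂, K₂ = τ + 3 ^ r * X + d₀ + |D| + ℓ + 2 * (a + b) * ra + 4 := ⟨_, rfl⟩
  have hD0 := abs_nonneg D
  have hab0 : 0 ≤ 2 * (a + b) * ra := by positivity
  have hℓ0 : 0 < ℓ := by linarith only [hℓ3, hY0]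
  have hV2 : ∀ k < r + 3, -K₂ ≤ V₂ k ∧ V₂ k ≤ K₂ := by
    intro k hk
    rw [hV₂]
    show -K₂ ≤ (if k ≤ r then jfV r (-τ) X k else if k = r + 1 then -τ - d₀ else 0) ∧
      (if k ≤ r then jfV r (-τ) X k else if k = r + 1 then -τ - d₀ else 0) ≤ K₂
    by_cases h1 : k ≤ r
    · rw [if_pos h1]
      obtain ⟨h2, h3⟩ := jfV_mem (r := r) (vv := -τ) (X := X) (by linarith only [hτ0]) hX0.le h1
      exact ⟨by linarith only [h2, hK₂, hd0, hD0, hab0, hℓ0],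
        by linarith only [h3, hK₂, hτ0, h3X, hd0, hD0, hab0, hℓ0]⟩
    · rw [if_neg h1]
      by_cases h2 : k = r + 1
      · rw [if_pos h2]
        exact ⟨by linarith only [hK₂, h3X, hD0, hab0, hℓ0],
          by linarith only [hK₂, hτ0, h3X, hd0, hD0, hab0, hℓ0]⟩
      · rw [if_neg h2]
        exact ⟨by linarith only [hK₂, hτ0, h3X, hd0, hD0, hab0, hℓ0],
          by linarith only [hK₂, hτ0, h3X, hd0, hD0, hab0, hℓ0]⟩
  obtain ⟨Nw, Vw, hVw, hVw1, hVw2⟩ := win_join hVv hV2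
  refine ⟨lam, kf, φ, by rw [← haE]; linarith only [hkf2, h3X, hr0], hφ0, max K₁ K₂, Nw, Vw, hVw,
    fun K' hK' => ?_⟩
  have hKK : K₂ ≤ K' := (le_max_right _ _).trans hK'
  obtain ⟨ε₀, hε₀, hP⟩ := hP K' ((le_max_left _ _).trans hK')
  refine ⟨min ε₀ (φ / 2), lt_min hε₀ (by linarith only [hφ0]), fun ε hε hεε S g₀ P θ P₂ θ₂ Eb e₂ c
    Pt rt L T G g hG hg hder hZ => ?_⟩
  have hεφ : 2 * ε ≤ φ := by
    have := hεε.trans (min_le_right _ _)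
    linarith only [this]
  obtain ⟨p, M, B₀, B₁, hB, hP⟩ := hP ε hε (hεε.trans (min_le_left _ _)) S g₀ P θ P₂ θ₂ Eb e₂ c Pt
    rt L T G g hG hg hder hZ
  obtain ⟨p', hp'⟩ : ∃ p' : ℕ → ι ⊕ (ℕ × ℕ × ℚ × ℚ), p' = fun j => if j < M then Sum.inl (p j) else
    Sum.inr (0, 0, 1, 1) := ⟨_, rfl⟩
  obtain ⟨B₀', hB₀'⟩ : ∃ B₀' : ℕ → ℝ, B₀' = fun j => if j < M then B₀ j else 0 := ⟨_, rfl⟩
  obtain ⟨B₁', hB₁'⟩ : ∃ B₁' : ℕ → ℝ, B₁' = fun j => if j < M then B₁ j else 1 := ⟨_, rfl⟩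
  have f1 : ∀ j < M, p' j = Sum.inl (p j) ∧ B₀' j = B₀ j ∧ B₁' j = B₁ j := fun j hj => by
    rw [hp', hB₀', hB₁']
    exact ⟨if_pos hj, if_pos hj, if_pos hj⟩
  have f2 : p' M = Sum.inr (0, 0, 1, 1) ∧ B₀' M = 0 ∧ B₁' M = 1 := by
    rw [hp', hB₀', hB₁']
    exact ⟨if_neg (lt_irrefl M), if_neg (lt_irrefl M), if_neg (lt_irrefl M)⟩
  refine ⟨p', M + 1, B₀', B₁', fun j hj => ?_, fun k₀ hgk => ?_⟩
  · rcases Nat.lt_or_ge j M with h1 | h1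
    · rw [(f1 j h1).2.1, (f1 j h1).2.2]
      exact hB j h1
    · obtain rfl : j = M := by omega
      rw [f2.2.1, f2.2.2]
      norm_num
  obtain ⟨q₁, hq₁, hP⟩ := hP k₀ fun j hj => by
    have h1 := hgk j (by omega)
    rw [(f1 j hj).1] at h1
    exact h1
  refine ⟨q₁, hq₁, fun q t x hq hx N A V N' V' R hp hv pf pr Nf hpf hpr1 hpr2 hNf hYr => ?_⟩
  obtain ⟨S', hS'1, hS'2, Ψ, I₂, e, E₂, r₂, p₂, m₁, ρ, E, rd, vn, Pn, En, Rn, K₁', he, hee,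
    hm₁, hρ, hE, hvD, PD⟩ := hP q t x hq (fun j hj => by
      have h1 := hx j (by omega)
      rw [(f1 j hj).1, (f1 j hj).2.1, (f1 j hj).2.2] at h1
      exact h1) N A V N' V' R hp (fun k hk => by
        obtain ⟨j, hj, hj'⟩ := hVw1 k hk
        obtain ⟨i, hi, hi'⟩ := hv j hj
        exact ⟨i, hi, hi'.trans hj'⟩) pf pr Nf hpf hpr1 hpr2 hNf hYr
  refine ⟨S', hS'1, hS'2, e, he, ?_⟩
  -- the chain
  have hfa : FaQ (0, 0, 1, 1) (k₀ M) S P θ c Pt rt L T κ G (x M) := by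
    have h1 := (hx M (Nat.lt_succ_self M)).2.2.2
    rw [f2.1] at h1
    exact h1
  have hch := (hfa.ch (r + 1) hrm).sub hS'2
  have hwin : ∀ k < r + 3, t + V₂ k * q ∈ G := fun k hk => by
    obtain ⟨j, hj, hj'⟩ := hVw2 k hk
    obtain ⟨i, hi, hi'⟩ := hv j hj
    rw [← hj', ← hi']
    exact R.memG.2 i hi
  have v1 : ∀ k ≤ r, V₂ k = jfV r (-τ) X k := fun k hk => by
    rw [hV₂]
    exact if_pos hk
  have v2 : V₂ (r + 1) = -τ - d₀ := by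
    rw [hV₂]
    show (if r + 1 ≤ r then _ else if r + 1 = r + 1 then _ else _) = _
    rw [if_neg (by omega), if_pos rfl]
  have v3 : V₂ (r + 2) = 0 := by
    rw [hV₂]
    show (if r + 2 ≤ r then _ else if r + 2 = r + 1 then _ else _) = _
    rw [if_neg (by omega), if_neg (by omega)]
  rw [← haE, ← hbE] at PD
  rw [← haE] at hE hvD
  have hmain := H R hS'2 hr hrm hκ haE.symm hbE.symm hch (X := X) (φ := φ)
    (kf := kf) (ℓ := ℓ) (D := D) (d₀ := d₀) hφ0 hφ2 hφ3 (by rw [← hτ, ← hra]; exact hX2)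
    (by rw [← hra, ← hY]; exact hX3) hkf2 (by rw [← hτ]; exact hℓ2)
    (by rw [← hra, ← hY]; exact hℓ3) hd0 (by rw [← hra]; exact hda)
    (by rw [← hτ]; linarith only [hKK, hK₂, hd0, hD0, hab0, hℓ0])
    (by rw [← hτ]; linarith only [hKK, hK₂, h3X, hD0, hab0, hℓ0])
    (by linarith only [hKK, hK₂, h3X, hD0, hab0, hd0, hτ0])
    (by rw [← hra]; linarith only [hKK, hK₂, h3X, hD0, hℓ0, hd0, hτ0])
    (by rw [← hτ]; linarith only [hKK, hK₂, h3X, hab0, hℓ0, hd0])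
    hεφ hε.le
    (by
      have h1 := hwin (r + 2) (by omega)
      rw [v3, zero_mul, add_zero] at h1
      exact h1)
    (fun k hk => by
      have h1 := hwin k (by omega)
      rw [v1 k hk, hτ] at h1
      exact h1)
    (by
      have h1 := hwin (r + 1) (by omega)
      rw [v2, hτ] at h1
      exact h1)
    (fun l hl => (hpf l hl).1) hpr1 hNf he (by rw [← hra, ← he₁]; exact hee) hm₁ hρ hE hvD PD
  rw [← haE]
  exact hmain

end Pool.CR99
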